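import Mathlib
import Pool.Agent.Helper51.GT.Defs

set_option autoImplicit false

/-! Module SYM of the crew table `gt_mods`: symmetry of the determinant of `W - (1+X)^j`. -/

namespace Pool.Agent.Helper51.GT

open Polynomial

theorem sym_natDegree {K : Type} [Field K] (j : ℕ) : ((1 + X : K[X]) ^ j).natDegree ≤ j := by
  have h : (1 + X : K[X]).natDegree ≤ 1 := by
    refine le_trans (Polynomial.natDegree_add_le _ _) ?_
    simp
  calc ((1 + X : K[X]) ^ j).natDegree ≤ j * (1 + X : K[X]).natDegree :=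
        Polynomial.natDegree_pow_le
    _ ≤ j * 1 := Nat.mul_le_mul_left _ h
    _ = j := Nat.mul_one j

theorem sym_reflect {K : Type} [Field K] (j : ℕ) :
    Polynomial.reflect j ((1 + X : K[X]) ^ j) = (1 + X) ^ j := by
  induction j with
  | zero => simp
  | succ j ih =>
    have h : (1 + X : K[X]).natDegree ≤ 1 := by
      refine le_trans (Polynomial.natDegree_add_le _ _) ?_
      simp
    rw [pow_succ, Polynomial.reflect_mul _ _ (sym_natDegree j) h, ih, Polynomial.reflect_add,
      Polynomial.reflect_one, Polynomial.reflect_one_X, pow_one, add_comm X (1 : K[X])]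

theorem sym_map {K : Type} [Field K] (f : K →+* K) (j : ℕ) :
    ((1 + X : K[X]) ^ j).map f = (1 + X) ^ j := by
  rw [Polynomial.map_pow, Polynomial.map_add, Polynomial.map_one, Polynomial.map_X]

theorem sym_flp {K : Type} [Field K] (φ : K ≃+* K) (j : ℕ) (W : Mat K) :
    flp φ j (W - ((1 + X : K[X]) ^ j) • (1 : Mat K)) =
      flp φ j W - ((1 + X : K[X]) ^ j) • (1 : Mat K) := by
  ext1 r c
  show Polynomial.reflect j (((W - ((1 + X : K[X]) ^ j) • (1 : Mat K)) c r).map (fr φ 5)) =
    Polynomial.reflect j ((W c r).map (fr φ 5)) - (((1 + X : K[X]) ^ j) • (1 : Mat K)) r c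
  rw [Matrix.sub_apply, Matrix.smul_apply, Matrix.smul_apply, Polynomial.map_sub,
    Polynomial.reflect_sub, smul_eq_mul, smul_eq_mul]
  congr 1
  by_cases h : r = c
  · subst h
    rw [Matrix.one_apply_eq, mul_one, sym_map, sym_reflect]
  · rw [Matrix.one_apply_ne h, Matrix.one_apply_ne (Ne.symm h), mul_zero, Polynomial.map_zero,
      Polynomial.reflect_zero]

theorem sym_one_add_X_ne {K : Type} [Field K] : (1 + X : K[X]) ≠ 0 := by
  intro h
  have h1 := congrArg (fun p : K[X] => p.coeff 1) h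
  simp [Polynomial.coeff_one] at h1

theorem st_SYM (hP : ST_PROD) (hF : ST_FLIP) (hD : ST_DETS) (hB : ST_MATB) : ST_SYM := by
  intro K _ φ hφ a b ha hb j t
  obtain ⟨p1, p2, p3, p4, p5⟩ := hP K φ hφ a b ha hb j
  obtain ⟨_, _, hU⟩ := hB K φ hφ (a 0) (ha 0) (a 0) (ha 0)
  have hs : ((1 + X : K[X]) ^ j) ≠ 0 := pow_ne_zero _ sym_one_add_X_ne
  have hdet := hD K[X] (wd φ a b j) (wr φ a b j) ((1 + X : K[X]) ^ j) hs p1 p2
  have hc : ∀ (r c : Fin 4) (s : ℕ), j < s →
      ((wd φ a b j - ((1 + X : K[X]) ^ j) • (1 : Mat K)) r c).coeff s = 0 := by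
    intro r c s hs
    rw [Matrix.sub_apply, Matrix.smul_apply, smul_eq_mul, Polynomial.coeff_sub, p3 r c s hs]
    by_cases h : r = c
    · subst h
      rw [Matrix.one_apply_eq, mul_one,
        Polynomial.coeff_eq_zero_of_natDegree_lt (lt_of_le_of_lt (sym_natDegree j) hs), sub_zero]
    · rw [Matrix.one_apply_ne h, mul_zero, Polynomial.coeff_zero, sub_zero]
  obtain ⟨_, _, f3, f4⟩ := hF K φ j j _ _ hc hc
  have key : (wr φ a b j - ((1 + X : K[X]) ^ j) • (1 : Mat K)) * Um =
      Um * flp φ j (wd φ a b j - ((1 + X : K[X]) ^ j) • (1 : Mat K)) := by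
    rw [sym_flp, Matrix.sub_mul, Matrix.mul_sub, p4, Matrix.smul_mul, Matrix.one_mul,
      Matrix.mul_smul, Matrix.mul_one]
  have key2 := congrArg Matrix.det key
  rw [Matrix.det_mul, Matrix.det_mul, hU, f3, hdet, mul_comm] at key2
  have key3 := mul_left_cancel₀ (pow_ne_zero 3 sym_one_add_X_ne) key2
  by_cases ht : t ≤ 4 * j
  · rw [if_pos ht]
    have h1 := congrArg (fun p : K[X] => p.coeff t) key3
    rw [Polynomial.coeff_reflect, Polynomial.revAt_le ht, Polynomial.coeff_map] at h1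
    exact h1
  · rw [if_neg ht]
    exact f4 t (not_le.1 ht)

end Pool.Agent.Helper51.GT
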