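import Mathlib
import Pool.Agent.Helper51.GT.Defs

set_option autoImplicit false

/-! Module FLIP of the crew table `gt_mods`: the flip is an anti-homomorphism. -/

namespace Pool.Agent.Helper51.GT

open Polynomial

theorem flip_natDegree_le {K : Type} [Field K] {p : K[X]} {m : ℕ}
    (h : ∀ s : ℕ, m < s → p.coeff s = 0) : p.natDegree ≤ m :=
  Polynomial.natDegree_le_iff_coeff_eq_zero.2 h

/-- `reflect` as an additive homomorphism. -/
noncomputable def flipHom (K : Type) [Field K] (N : ℕ) : K[X] →+ K[X] where
  toFun := Polynomial.reflect N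
  map_zero' := Polynomial.reflect_zero
  map_add' := fun f g => Polynomial.reflect_add f g N

theorem flipHom_apply {K : Type} [Field K] (N : ℕ) (p : K[X]) :
    flipHom K N p = Polynomial.reflect N p := rfl

theorem flip_reflect_prod4 {K : Type} [Field K] {m : ℕ} {a b c d : K[X]}
    (ha : a.natDegree ≤ m) (hb : b.natDegree ≤ m) (hc : c.natDegree ≤ m) (hd : d.natDegree ≤ m) :
    Polynomial.reflect (4 * m) (a * b * c * d) =
      Polynomial.reflect m a * Polynomial.reflect m b * Polynomial.reflect m c *
        Polynomial.reflect m d := by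
  have h1 : (a * b).natDegree ≤ m + m := le_trans Polynomial.natDegree_mul_le (by omega)
  have h2 : (a * b * c).natDegree ≤ m + m + m := le_trans Polynomial.natDegree_mul_le (by omega)
  have h3 : 4 * m = m + m + m + m := by ring
  rw [h3, Polynomial.reflect_mul _ _ h2 hd, Polynomial.reflect_mul _ _ h1 hc,
    Polynomial.reflect_mul _ _ ha hb]

theorem flip_natDegree_prod4 {K : Type} [Field K] {m : ℕ} {a b c d : K[X]}
    (ha : a.natDegree ≤ m) (hb : b.natDegree ≤ m) (hc : c.natDegree ≤ m) (hd : d.natDegree ≤ m) :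
    (a * b * c * d).natDegree ≤ 4 * m := by
  have h1 : (a * b).natDegree ≤ m + m := le_trans Polynomial.natDegree_mul_le (by omega)
  have h2 : (a * b * c).natDegree ≤ m + m + m := le_trans Polynomial.natDegree_mul_le (by omega)
  exact le_trans Polynomial.natDegree_mul_le (by omega)

theorem flip_det_reflect {K : Type} [Field K] {m : ℕ} (A : Mat K)
    (hA : ∀ r c : Fin 4, (A r c).natDegree ≤ m) :
    (Matrix.of fun r c => Polynomial.reflect m (A c r)).det = Polynomial.reflect (4 * m) A.det := by
  have h1 : (Matrix.of fun r c => Polynomial.reflect m (A c r)) =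
      (Matrix.of fun r c => Polynomial.reflect m (A r c)).transpose := by
    ext r c
    simp [Matrix.transpose_apply]
  rw [h1, Matrix.det_transpose, Matrix.det_apply, Matrix.det_apply, ← flipHom_apply, map_sum]
  refine Finset.sum_congr rfl fun σ _ => ?_
  rw [Units.smul_def, Units.smul_def, map_zsmul, flipHom_apply, Fin.prod_univ_four,
    Fin.prod_univ_four, flip_reflect_prod4 (hA _ _) (hA _ _) (hA _ _) (hA _ _)]
  rfl

theorem flip_det_coeff {K : Type} [Field K] {m : ℕ} (A : Mat K)
    (hA : ∀ r c : Fin 4, (A r c).natDegree ≤ m) (s : ℕ) (hs : 4 * m < s) : A.det.coeff s = 0 := by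
  rw [Matrix.det_apply, Polynomial.finsetSum_coeff]
  refine Finset.sum_eq_zero fun σ _ => ?_
  have h : (∏ i : Fin 4, A (σ i) i).coeff s = 0 := by
    rw [Fin.prod_univ_four]
    exact Polynomial.coeff_eq_zero_of_natDegree_lt
      (lt_of_le_of_lt (flip_natDegree_prod4 (hA _ _) (hA _ _) (hA _ _) (hA _ _)) hs)
  rw [Units.smul_def, Polynomial.coeff_smul, h, smul_zero]

theorem st_FLIP : ST_FLIP := by
  intro K _ φ m n M N hM hN
  have dM : ∀ r c : Fin 4, (M r c).natDegree ≤ m := fun r c => flip_natDegree_le (hM r c)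
  have dN : ∀ r c : Fin 4, (N r c).natDegree ≤ n := fun r c => flip_natDegree_le (hN r c)
  have dM' : ∀ r c : Fin 4, ((M r c).map (fr φ 5)).natDegree ≤ m :=
    fun r c => le_trans Polynomial.natDegree_map_le (dM r c)
  have dN' : ∀ r c : Fin 4, ((N r c).map (fr φ 5)).natDegree ≤ n :=
    fun r c => le_trans Polynomial.natDegree_map_le (dN r c)
  refine ⟨?_, ?_, ?_, ?_⟩
  · ext1 r c
    show Polynomial.reflect (m + n) (((M * N) c r).map (fr φ 5)) = _
    rw [Matrix.mul_apply, Matrix.mul_apply, Polynomial.map_sum, ← flipHom_apply, map_sum]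
    refine Finset.sum_congr rfl fun k _ => ?_
    rw [flipHom_apply, Polynomial.map_mul, Polynomial.reflect_mul _ _ (dM' _ _) (dN' _ _), mul_comm]
    rfl
  · intro r c s hs
    rw [Matrix.mul_apply, Polynomial.finsetSum_coeff]
    refine Finset.sum_eq_zero fun k _ => ?_
    refine Polynomial.coeff_eq_zero_of_natDegree_lt (lt_of_le_of_lt ?_ hs)
    exact le_trans Polynomial.natDegree_mul_le (Nat.add_le_add (dM _ _) (dN _ _))
  · have h1 : M.det.map (fr φ 5) = (M.map (Polynomial.map (fr φ 5))).det := by
      have := RingHom.map_det (Polynomial.mapRingHom (fr φ 5)) M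
      rw [Polynomial.coe_mapRingHom] at this
      rw [this]
      rfl
    rw [h1]
    exact flip_det_reflect (M.map (Polynomial.map (fr φ 5))) dM'
  · intro s hs
    exact flip_det_coeff M dM s hs

end Pool.Agent.Helper51.GT
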